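import Pool.Agent.Run7.h431.SC.GluC

/-!
# Gluing (piece GLU)
-/

set_option autoImplicit false
set_option linter.unusedVariables false

namespace Pool.Agent.Run7.h431.SC

open AlgebraicGeometry CategoryTheory Limits Pool.Agent.W418.LU2 Pool.Agent.Run7.h275.RB Pool.Agent.Run7.h275.SC

variable {F : Type} [Field F]

lemma inc_inc {B C D : Subring F} (h1 : B ≤ C) (h2 : C ≤ D) (w : Sp D) : inc h1 (inc h2 w) = inc (h1.trans h2) w := by
  rw [inc_comp h1 h2, Scheme.Hom.comp_apply]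

set_option backward.isDefEq.respectTransparency false in
lemma Gl.separated {𝓑 : Set (Subring F)} {Y : Scheme.{0}} {ι : ∀ B, B ∈ 𝓑 → (Sp B ⟶ Y)} (h : Gl 𝓑 Y ι) :
    Y.IsSeparated := by
  refine ⟨⟨IsZariskiLocalAtTarget.of_openCover (Scheme.Pullback.openCoverOfLeftRight h.cover h.cover _ _) ?_⟩⟩
  intro ⟨i, j⟩
  dsimp [Scheme.Cover.pullbackHom]
  refine (MorphismProperty.cancel_left_of_respectsIso (P := @IsClosedImmersion)
    (f := (pullbackDiagonalMapIdIso ..).inv) _).mp ?_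
  have hA : IsAffine (pullback (ι i.1 i.2 ≫ terminal.from Y) (ι j.1 j.2 ≫ terminal.from Y)) := by
    infer_instance
  refine @Gl.closed F _ 𝓑 Y ι h i.1 j.1 i.2 j.2 _ hA _ (pullback.fst _ _) (pullback.snd _ _) ?_ ?_
  · rw [Category.assoc]
    exact pullbackDiagonalMapIdIso_inv_snd_fst _ _ _
  · rw [Category.assoc]
    exact pullbackDiagonalMapIdIso_inv_snd_snd _ _ _

theorem t_GLU : S_GLU := by
  intro hO F _ 𝓑 hF S h hh
  have i1 : ∀ {i j : (↥𝓑)ᵒᵈ} (f : i ⟶ j), IsOpenImmersion ((Dia 𝓑).map f) := fun f => dia_open hO hF f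
  have i2 : (Dia 𝓑 ⋙ Scheme.forget).IsLocallyDirected := dia_dir hF
  let c : Cocone (Dia 𝓑) :=
    { pt := S
      ι := { app := fun j => h (OrderDual.ofDual j).1 (OrderDual.ofDual j).2
             naturality := fun i j f => by
               exact (hh _ _ _ _ _).trans (Category.comp_id _).symm } }
  let Y : Scheme.{0} := colimit (Dia 𝓑)
  let g : Y ⟶ S := colimit.desc (Dia 𝓑) c
  let ι : ∀ B, B ∈ 𝓑 → (Sp B ⟶ Y) := fun B hB => colimit.ι (Dia 𝓑) (OrderDual.toDual ⟨B, hB⟩)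
  have hcomp : ∀ B C (hB : B ∈ 𝓑) (hC : C ∈ 𝓑) (hBC : B ≤ C), inc hBC ≫ ι B hB = ι C hC := by
    intro B C hB hC hBC
    exact colimit.w (Dia 𝓑) (homOfLE hBC : (OrderDual.toDual ⟨C, hC⟩ : (↥𝓑)ᵒᵈ) ⟶ OrderDual.toDual ⟨B, hB⟩)
  have hop : ∀ B hB, IsOpenImmersion (ι B hB) := fun B hB =>
    inferInstanceAs (IsOpenImmersion (colimit.ι (Dia 𝓑) (OrderDual.toDual ⟨B, hB⟩)))
  have hsurj : ∀ y : Y, ∃ B, ∃ hB : B ∈ 𝓑, ∃ x, ι B hB x = y := by
    intro y
    obtain ⟨i, x, hx⟩ := Scheme.IsLocallyDirected.ι_jointly_surjective (Dia 𝓑) y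
    exact ⟨(OrderDual.ofDual i).1, (OrderDual.ofDual i).2, x, hx⟩
  have hG : Gl 𝓑 Y ι := by
    refine ⟨hF.sup, hop, hcomp, hsurj, ?_⟩
    intro B C hB hC x y hxy
    obtain ⟨k, fi, fj, w, h1, h2⟩ := (Scheme.IsLocallyDirected.ι_eq_ι_iff (Dia 𝓑)).1 hxy
    have hB' : B ≤ (OrderDual.ofDual k).1 := leOfHom fi
    have hC' : C ≤ (OrderDual.ofDual k).1 := leOfHom fj
    have h1' : inc hB' w = x := h1
    have h2' : inc hC' w = y := h2
    refine ⟨inc (sup_le hB' hC') w, ?_, ?_⟩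
    · exact (inc_inc _ _ _).trans h1'
    · exact (inc_inc _ _ _).trans h2'
  have hg : ∀ B hB, ι B hB ≫ g = h B hB := fun B hB => colimit.ι_desc c _
  refine ⟨Y, g, ι, hG.integral hF.ne, hG.separated, fun B hB => ⟨hop B hB, hg B hB⟩, hcomp, hsurj, ?_⟩
  intro hl
  refine hG.lft g (fun B hB => ?_)
  rw [hg B hB]
  exact hl B hB

end Pool.Agent.Run7.h431.SC
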