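import Pool.Agent.Run7.h275.S.I0

/-!
# Gluing, algebra part: centres of valuation rings on families of subrings
-/

set_option autoImplicit false

namespace Pool.Agent.Run7.h431.SC

open AlgebraicGeometry CategoryTheory Pool.Agent.W418.LU2 Pool.Agent.Run7.h275.RB Pool.Agent.Run7.h275.SC

variable {F : Type} [Field F]

/-- The centre of `V` on `B` is `p`. -/
def Cen (V : ValuationSubring F) (B : Subring F) (p : Ideal B) : Prop :=
  B ≤ V.toSubring ∧ ∀ b : B, b ∈ p ↔ V.valuation (b : F) < 1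

lemma exists_cen (B : Subring F) (p : Ideal B) [p.IsPrime] : ∃ V : ValuationSubring F, Cen V B p := by
  obtain ⟨V, hV⟩ := (LocalSubring.ofPrime B p).exists_le_valuationSubring
  have hBV : B ≤ V.toSubring := (LocalSubring.le_ofPrime B p).trans hV.1
  refine ⟨V, hBV, fun b => ?_⟩
  have hu : b ∈ p ↔ ¬ IsUnit (algebraMap B (LocalSubring.ofPrime B p).toSubring b) := by
    rw [← not_iff_not, not_not]
    exact (IsLocalization.AtPrime.isUnit_to_map_iff (LocalSubring.ofPrime B p).toSubring p b).symm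
  have hloc := hV.2
  rw [hu, ← isUnit_map_iff (Subring.inclusion hV.1)]
  have h1 : (Subring.inclusion hV.1 (algebraMap B (LocalSubring.ofPrime B p).toSubring b)) =
      (⟨(b : F), hBV b.2⟩ : V.toSubring) := rfl
  rw [h1]
  have h2 : (b : F) ∈ V := hBV b.2
  have h3 := V.valuation_lt_one_iff ⟨(b : F), h2⟩
  rw [IsLocalRing.mem_maximalIdeal] at h3
  exact h3

lemma inv_mem_iff {V : ValuationSubring F} {x : F} (h0 : x ≠ 0) : x⁻¹ ∈ V.toSubring ↔ ¬ V.valuation x < 1 := by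
  have : x⁻¹ ∈ V.toSubring ↔ V.valuation x⁻¹ ≤ 1 := (V.valuation_le_one_iff x⁻¹).symm
  rw [this, map_inv₀, not_lt, inv_le_one₀ (zero_lt_iff.2 ((V.valuation.ne_zero_iff).2 h0))]

lemma lo_congr {V W : ValuationSubring F} {D : Subring F} {p : Ideal D} (h1 : Cen V D p) (h2 : Cen W D p) :
    lo V.toSubring D = lo W.toSubring D := by
  ext x
  constructor
  · rintro ⟨a, ha, b, hb, hb0, hbA, rfl⟩
    refine ⟨a, ha, b, hb, hb0, ?_, rfl⟩
    rw [inv_mem_iff hb0] at hbA ⊢
    rwa [← h2.2 ⟨b, hb⟩, h1.2 ⟨b, hb⟩]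
  · rintro ⟨a, ha, b, hb, hb0, hbA, rfl⟩
    refine ⟨a, ha, b, hb, hb0, ?_, rfl⟩
    rw [inv_mem_iff hb0] at hbA ⊢
    rwa [← h1.2 ⟨b, hb⟩, h2.2 ⟨b, hb⟩]

lemma val_lt_iff {V W : ValuationSubring F} {D : Subring F} {p : Ideal D} (h1 : Cen V D p) (h2 : Cen W D p)
    {x : F} (hx : x ∈ lo V.toSubring D) : V.valuation x < 1 ↔ W.valuation x < 1 := by
  obtain ⟨a, ha, b, hb, hb0, hbA, rfl⟩ := hx
  have hV : V.valuation b = 1 := by
    refine le_antisymm ((V.valuation_le_one_iff b).2 (h1.1 hb)) ?_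
    rw [inv_mem_iff hb0] at hbA
    exact not_lt.1 hbA
  have hW : W.valuation b = 1 := by
    refine le_antisymm ((W.valuation_le_one_iff b).2 (h2.1 hb)) ?_
    rw [inv_mem_iff hb0, ← h1.2 ⟨b, hb⟩, h2.2 ⟨b, hb⟩] at hbA
    exact not_lt.1 hbA
  rw [map_mul, map_mul, map_inv₀, map_inv₀, hV, hW, inv_one, inv_one, mul_one, mul_one]
  rw [← h1.2 ⟨a, ha⟩, ← h2.2 ⟨a, ha⟩]

/-- The centre on a larger ring. -/
lemma Cen.comap {V : ValuationSubring F} {D B : Subring F} (h : D ≤ B) {p : Ideal B} (h1 : Cen V B p) :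
    Cen V D (p.comap (Subring.inclusion h)) :=
  ⟨h.trans h1.1, fun b => h1.2 (Subring.inclusion h b)⟩

/-- The centre of `V`. -/
def cen (V : ValuationSubring F) (B : Subring F) (h : B ≤ V.toSubring) : Ideal B :=
  (IsLocalRing.maximalIdeal V).comap (Subring.inclusion h)

lemma cen_cen (V : ValuationSubring F) (B : Subring F) (h : B ≤ V.toSubring) : Cen V B (cen V B h) :=
  ⟨h, fun b => V.valuation_lt_one_iff ⟨(b : F), h b.2⟩⟩

instance (V : ValuationSubring F) (B : Subring F) (h : B ≤ V.toSubring) : (cen V B h).IsPrime := by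
  unfold cen
  infer_instance

/-- Two points of two charts with the same image in a chart below come from the join. -/
lemma exists_join {𝓑 : Set (Subring F)} (hF : Fam 𝓑) {B C D : Subring F} (hB : B ∈ 𝓑) (hC : C ∈ 𝓑) (hD : D ∈ 𝓑)
    (hDB : D ≤ B) (hDC : D ≤ C) (x : Ideal B) (y : Ideal C) [x.IsPrime] [y.IsPrime]
    (hxy : x.comap (Subring.inclusion hDB) = y.comap (Subring.inclusion hDC)) :
    ∃ (w : Ideal (B ⊔ C : Subring F)), w.IsPrime ∧
      w.comap (Subring.inclusion (le_sup_left : B ≤ B ⊔ C)) = x ∧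
      w.comap (Subring.inclusion (le_sup_right : C ≤ B ⊔ C)) = y := by
  obtain ⟨V, hV⟩ := exists_cen B x
  obtain ⟨W, hW⟩ := exists_cen C y
  have hVD := hV.comap hDB
  have hWD := hW.comap hDC
  rw [← hxy] at hWD
  have h1 : lo W.toSubring C = lo V.toSubring D := by
    rw [lo_congr hVD hWD]
    exact (hF.loc D hD C hC W hWD.1 hW.1).symm
  have hCV : C ≤ V.toSubring := by
    intro c hc
    have : c ∈ lo W.toSubring C := le_lo _ _ hc
    rw [h1] at this
    exact lo_le hVD.1 this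
  have hCen : Cen V C y := by
    refine ⟨hCV, fun c => ?_⟩
    rw [hW.2 c]
    have : (c : F) ∈ lo V.toSubring D := by
      rw [← h1]
      exact le_lo _ _ c.2
    exact (val_lt_iff hVD hWD this).symm
  have hle : B ⊔ C ≤ V.toSubring := sup_le hV.1 hCV
  refine ⟨cen V (B ⊔ C) hle, inferInstance, ?_, ?_⟩
  · ext b
    have := ((cen_cen V (B ⊔ C) hle).comap (le_sup_left : B ≤ B ⊔ C)).2 b
    rw [this, ← hV.2 b]
  · ext c
    have := ((cen_cen V (B ⊔ C) hle).comap (le_sup_right : C ≤ B ⊔ C)).2 c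
    rw [this, ← hCen.2 c]

end Pool.Agent.Run7.h431.SC
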