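import Pool.Agent.Run7.h431.SC.GluA

/-!
# Gluing, the diagram of charts
-/

set_option autoImplicit false
set_option linter.unusedVariables false

namespace Pool.Agent.Run7.h431.SC

open AlgebraicGeometry CategoryTheory Limits Pool.Agent.W418.LU2 Pool.Agent.Run7.h275.RB Pool.Agent.Run7.h275.SC

variable {F : Type} [Field F]

lemma inc_id (B : Subring F) : inc (le_refl B) = 𝟙 (Sp B) := by
  have : CommRingCat.ofHom (Subring.inclusion (le_refl B)) = 𝟙 (CommRingCat.of B) := by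
    ext x
    rfl
  rw [inc, this]
  exact Spec.map_id _

lemma inc_comp {B C D : Subring F} (h1 : B ≤ C) (h2 : C ≤ D) : inc (h1.trans h2) = inc h2 ≫ inc h1 := by
  rw [inc, inc, inc, ← Spec.map_comp, ← CommRingCat.ofHom_comp]
  rfl

/-- The diagram of charts. -/
noncomputable def Dia (𝓑 : Set (Subring F)) : (↥𝓑)ᵒᵈ ⥤ Scheme.{0} where
  obj j := Sp (OrderDual.ofDual j).1
  map {i j} f := inc (show (OrderDual.ofDual j).1 ≤ (OrderDual.ofDual i).1 from leOfHom f)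
  map_id j := inc_id _
  map_comp {i j k} f g := inc_comp _ _

lemma inc_apply {B C : Subring F} (h : B ≤ C) (x : Sp C) :
    inc h x = PrimeSpectrum.comap (Subring.inclusion h) x := rfl

lemma exists_pt {𝓑 : Set (Subring F)} (hF : Fam 𝓑) {B C D : Subring F} (hB : B ∈ 𝓑) (hC : C ∈ 𝓑) (hD : D ∈ 𝓑)
    (hDB : D ≤ B) (hDC : D ≤ C) (x : Sp B) (y : Sp C) (hxy : inc hDB x = inc hDC y) :
    ∃ w : Sp (B ⊔ C), inc (le_sup_left : B ≤ B ⊔ C) w = x ∧ inc (le_sup_right : C ≤ B ⊔ C) w = y := by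
  have hx : (PrimeSpectrum.asIdeal (R := B) x).IsPrime := PrimeSpectrum.isPrime (R := B) x
  have hy : (PrimeSpectrum.asIdeal (R := C) y).IsPrime := PrimeSpectrum.isPrime (R := C) y
  obtain ⟨w, hw, h1, h2⟩ := exists_join hF hB hC hD hDB hDC (PrimeSpectrum.asIdeal (R := B) x)
    (PrimeSpectrum.asIdeal (R := C) y) (congrArg (PrimeSpectrum.asIdeal (R := D)) hxy)
  refine ⟨(⟨w, hw⟩ : PrimeSpectrum (B ⊔ C : Subring F)), ?_, ?_⟩
  · exact PrimeSpectrum.ext (R := B) h1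
  · exact PrimeSpectrum.ext (R := C) h2

lemma dia_open (hO : S_OIM) {𝓑 : Set (Subring F)} (hF : Fam 𝓑) {i j : (↥𝓑)ᵒᵈ} (f : i ⟶ j) :
    IsOpenImmersion ((Dia 𝓑).map f) :=
  hO F _ _ _ (hF.fg _ (OrderDual.ofDual j).2 _ (OrderDual.ofDual i).2 (leOfHom f))
    (fun V hV => hF.loc _ (OrderDual.ofDual j).2 _ (OrderDual.ofDual i).2 V
      (le_trans (show (OrderDual.ofDual j).1 ≤ (OrderDual.ofDual i).1 from leOfHom f) hV) hV)

lemma dia_dir {𝓑 : Set (Subring F)} (hF : Fam 𝓑) : (Dia 𝓑 ⋙ Scheme.forget).IsLocallyDirected := by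
  constructor
  intro i j k fi fj xi xj hx
  obtain ⟨B, hB⟩ := i
  obtain ⟨C, hC⟩ := j
  obtain ⟨D, hD⟩ := k
  obtain ⟨w, h1, h2⟩ := exists_pt hF hB hC hD (leOfHom fi) (leOfHom fj) xi xj hx
  refine ⟨OrderDual.toDual ⟨B ⊔ C, hF.sup B hB C hC⟩, homOfLE (le_sup_left : B ≤ B ⊔ C),
    homOfLE (le_sup_right : C ≤ B ⊔ C), w, h1, h2⟩

end Pool.Agent.Run7.h431.SC
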