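import Pool.Agent.Run7.h431.SC.GluB

/-!
# Gluing, properties of the glued scheme
-/

set_option autoImplicit false
set_option linter.unusedVariables false

namespace Pool.Agent.Run7.h431.SC

open AlgebraicGeometry CategoryTheory Limits Pool.Agent.W418.LU2 Pool.Agent.Run7.h275.RB Pool.Agent.Run7.h275.SC

variable {F : Type} [Field F]

/-- A scheme glued from the spectra of a family of subrings. -/
structure Gl (𝓑 : Set (Subring F)) (Y : Scheme.{0}) (ι : ∀ B, B ∈ 𝓑 → (Sp B ⟶ Y)) : Prop where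
  sup : ∀ B ∈ 𝓑, ∀ C ∈ 𝓑, B ⊔ C ∈ 𝓑
  op : ∀ B hB, IsOpenImmersion (ι B hB)
  comp : ∀ B C (hB : B ∈ 𝓑) (hC : C ∈ 𝓑) (hBC : B ≤ C), inc hBC ≫ ι B hB = ι C hC
  surj : ∀ y : Y, ∃ B, ∃ hB : B ∈ 𝓑, ∃ x, ι B hB x = y
  inter : ∀ B C (hB : B ∈ 𝓑) (hC : C ∈ 𝓑) (x : Sp B) (y : Sp C), ι B hB x = ι C hC y →
    ∃ w : Sp (B ⊔ C), inc (le_sup_left : B ≤ B ⊔ C) w = x ∧ inc (le_sup_right : C ≤ B ⊔ C) w = y

/-- The cover by the charts. -/
noncomputable def Gl.cover {𝓑 : Set (Subring F)} {Y : Scheme.{0}} {ι : ∀ B, B ∈ 𝓑 → (Sp B ⟶ Y)} (h : Gl 𝓑 Y ι) :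
    Y.OpenCover :=
  Scheme.Cover.mkOfCovers (↥𝓑) (fun j => Sp j.1) (fun j => ι j.1 j.2)
    (fun y => by
      obtain ⟨B, hB, x, hx⟩ := h.surj y
      exact ⟨⟨B, hB⟩, x, hx⟩)
    (fun j => h.op j.1 j.2)

lemma Gl.reduced {𝓑 : Set (Subring F)} {Y : Scheme.{0}} {ι : ∀ B, B ∈ 𝓑 → (Sp B ⟶ Y)} (h : Gl 𝓑 Y ι) :
    IsReduced Y := by
  have : ∀ i, IsReduced (h.cover.X i) := by
    intro i
    change IsReduced (Sp i.1)
    infer_instance
  exact IsReduced.of_openCover Y h.cover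

/-- The generic point of a chart. -/
noncomputable def gpt (B : Subring F) : Sp B := (⟨⊥, Ideal.isPrime_bot⟩ : PrimeSpectrum B)

lemma gpt_dense (B : Subring F) (x : Sp B) : x ∈ closure ({gpt B} : Set (Sp B)) := by
  have : gpt B ⤳ x := by
    exact (PrimeSpectrum.le_iff_specializes (R := B) ⟨⊥, Ideal.isPrime_bot⟩ x).1 (bot_le)
  exact this.mem_closure

lemma inc_gpt {B C : Subring F} (h : B ≤ C) : inc h (gpt C) = gpt B := by
  refine PrimeSpectrum.ext (R := B) ?_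
  change Ideal.comap (Subring.inclusion h) ⊥ = ⊥
  rw [eq_bot_iff]
  intro b hb
  rw [Ideal.mem_comap, Ideal.mem_bot] at hb
  rw [Ideal.mem_bot]
  exact Subtype.ext (congrArg (fun z : C => (z : F)) hb)

lemma Gl.irr {𝓑 : Set (Subring F)} {Y : Scheme.{0}} {ι : ∀ B, B ∈ 𝓑 → (Sp B ⟶ Y)} (h : Gl 𝓑 Y ι)
    (hne : 𝓑.Nonempty) : IrreducibleSpace Y := by
  obtain ⟨B, hB⟩ := hne
  have key : ∀ C (hC : C ∈ 𝓑), ι C hC (gpt C) = ι B hB (gpt B) := by
    intro C hC
    have h1 := h.comp B (B ⊔ C) hB (h.sup B hB C hC) le_sup_left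
    have h2 := h.comp C (B ⊔ C) hC (h.sup B hB C hC) le_sup_right
    have e1 : ι C hC (gpt C) = ι (B ⊔ C) (h.sup B hB C hC) (gpt (B ⊔ C)) := by
      rw [← h2, Scheme.Hom.comp_apply, inc_gpt]
    have e2 : ι B hB (gpt B) = ι (B ⊔ C) (h.sup B hB C hC) (gpt (B ⊔ C)) := by
      rw [← h1, Scheme.Hom.comp_apply, inc_gpt]
    rw [e1, e2]
  have hcl : closure ({ι B hB (gpt B)} : Set Y) = Set.univ := by
    rw [Set.eq_univ_iff_forall]
    intro y
    obtain ⟨C, hC, x, rfl⟩ := h.surj y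
    rw [← key C hC]
    have := (gpt_dense C x)
    have hc : Continuous (ι C hC) := (ι C hC).continuous
    have h3 := image_closure_subset_closure_image (s := {gpt C}) hc
    rw [Set.image_singleton] at h3
    exact h3 ⟨x, this, rfl⟩
  have : IsIrreducible (closure ({ι B hB (gpt B)} : Set Y)) := isIrreducible_singleton.closure
  rw [hcl] at this
  exact (irreducibleSpace_def Y).2 this

lemma Gl.integral {𝓑 : Set (Subring F)} {Y : Scheme.{0}} {ι : ∀ B, B ∈ 𝓑 → (Sp B ⟶ Y)} (h : Gl 𝓑 Y ι)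
    (hne : 𝓑.Nonempty) : IsIntegral Y := by
  have := h.irr hne
  have := h.reduced
  exact isIntegral_of_irreducibleSpace_of_isReduced Y

set_option backward.isDefEq.respectTransparency.types false in
lemma Gl.lft {𝓑 : Set (Subring F)} {Y : Scheme.{0}} {ι : ∀ B, B ∈ 𝓑 → (Sp B ⟶ Y)} (h : Gl 𝓑 Y ι)
    {S : Scheme.{0}} (g : Y ⟶ S) (hg : ∀ B hB, LocallyOfFiniteType (ι B hB ≫ g)) : LocallyOfFiniteType g := by
  exact (IsZariskiLocalAtSource.iff_of_openCover (P := @LocallyOfFiniteType) h.cover).2 (fun i => hg i.1 i.2)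

/-- A morphism from the spectrum of the join to an affine scheme over both spectra is a closed immersion. -/
lemma closed_of_join (B C : Subring F) (P : Scheme.{0}) [IsAffine P] (δ : Sp (B ⊔ C) ⟶ P) (p : P ⟶ Sp B)
    (q : P ⟶ Sp C) (h1 : δ ≫ p = inc (le_sup_left : B ≤ B ⊔ C)) (h2 : δ ≫ q = inc (le_sup_right : C ≤ B ⊔ C)) :
    IsClosedImmersion δ := by
  obtain ⟨φ, hφ⟩ := Spec.map_surjective (δ ≫ P.isoSpec.hom)
  obtain ⟨ψ, hψ⟩ := Spec.map_surjective (P.isoSpec.inv ≫ p)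
  obtain ⟨χ, hχ⟩ := Spec.map_surjective (P.isoSpec.inv ≫ q)
  have e1 : ψ ≫ φ = CommRingCat.ofHom (Subring.inclusion (le_sup_left : B ≤ B ⊔ C)) := by
    apply Spec.map_injective
    rw [Spec.map_comp, hφ, hψ, Category.assoc, Iso.hom_inv_id_assoc, h1]
    rfl
  have e2 : χ ≫ φ = CommRingCat.ofHom (Subring.inclusion (le_sup_right : C ≤ B ⊔ C)) := by
    apply Spec.map_injective
    rw [Spec.map_comp, hφ, hχ, Category.assoc, Iso.hom_inv_id_assoc, h2]
    rfl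
  have hsurj : Function.Surjective φ := by
    have hle : B ⊔ C ≤ ((B ⊔ C).subtype.comp φ.hom).range := by
      refine sup_le ?_ ?_
      · intro b hb
        refine ⟨ψ ⟨b, hb⟩, ?_⟩
        have := congrArg (fun k => (k.hom ⟨b, hb⟩ : (B ⊔ C : Subring F))) e1
        exact congrArg (fun z : (B ⊔ C : Subring F) => (z : F)) this
      · intro c hc
        refine ⟨χ ⟨c, hc⟩, ?_⟩
        have := congrArg (fun k => (k.hom ⟨c, hc⟩ : (B ⊔ C : Subring F))) e2
        exact congrArg (fun z : (B ⊔ C : Subring F) => (z : F)) this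
    intro z
    obtain ⟨r, hr⟩ := hle z.2
    exact ⟨r, Subtype.ext hr⟩
  have h3 : IsClosedImmersion (Spec.map φ) := IsClosedImmersion.spec_of_surjective φ hsurj
  have h4 : δ = Spec.map φ ≫ P.isoSpec.inv := by
    rw [hφ, Category.assoc, Iso.hom_inv_id, Category.comp_id]
  rw [h4]
  infer_instance

section

variable {𝓑 : Set (Subring F)} {Y : Scheme.{0}} {ι : ∀ B, B ∈ 𝓑 → (Sp B ⟶ Y)}

/-- The map to the intersection of two charts. -/
noncomputable def Gl.u (h : Gl 𝓑 Y ι) (B C : Subring F) (hB : B ∈ 𝓑) (hC : C ∈ 𝓑) :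
    Sp (B ⊔ C) ⟶ pullback (ι B hB) (ι C hC) :=
  pullback.lift (inc le_sup_left) (inc le_sup_right)
    ((h.comp B (B ⊔ C) hB (h.sup B hB C hC) le_sup_left).trans
      (h.comp C (B ⊔ C) hC (h.sup B hB C hC) le_sup_right).symm)

lemma Gl.isIso_u (h : Gl 𝓑 Y ι) (B C : Subring F) (hB : B ∈ 𝓑) (hC : C ∈ 𝓑) : IsIso (h.u B C hB hC) := by
  have hb := h.op B hB
  have hc := h.op C hC
  have hbc := h.op (B ⊔ C) (h.sup B hB C hC)
  have h1 : IsOpenImmersion (inc (le_sup_left : B ≤ B ⊔ C)) := by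
    have := h.comp B (B ⊔ C) hB (h.sup B hB C hC) le_sup_left
    rw [← this] at hbc
    exact IsOpenImmersion.of_comp _ (ι B hB)
  have h2 : h.u B C hB hC ≫ pullback.fst _ _ = inc (le_sup_left : B ≤ B ⊔ C) := pullback.lift_fst _ _ _
  have h2' : h.u B C hB hC ≫ pullback.snd _ _ = inc (le_sup_right : C ≤ B ⊔ C) := pullback.lift_snd _ _ _
  have h3 : IsOpenImmersion (h.u B C hB hC) := by
    have : IsOpenImmersion (h.u B C hB hC ≫ pullback.fst _ _) := by rw [h2]; exact h1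
    exact IsOpenImmersion.of_comp _ (pullback.fst (ι B hB) (ι C hC))
  have h4 : Surjective (h.u B C hB hC) := by
    constructor
    intro z
    have hz : ι B hB (pullback.fst (ι B hB) (ι C hC) z) = ι C hC (pullback.snd (ι B hB) (ι C hC) z) := by
      rw [← Scheme.Hom.comp_apply, ← Scheme.Hom.comp_apply, pullback.condition]
    obtain ⟨w, hw1, hw2⟩ := h.inter B C hB hC _ _ hz
    refine ⟨w, ?_⟩
    apply (pullback.fst (ι B hB) (ι C hC)).isOpenEmbedding.injective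
    rw [← Scheme.Hom.comp_apply, h2, hw1]
  exact (isIso_iff_isOpenImmersion_and_surjective _).2 ⟨h3, h4⟩

lemma Gl.closed (h : Gl 𝓑 Y ι) (B C : Subring F) (hB : B ∈ 𝓑) (hC : C ∈ 𝓑) (P : Scheme.{0}) [IsAffine P]
    (δ : pullback (ι B hB) (ι C hC) ⟶ P) (p : P ⟶ Sp B) (q : P ⟶ Sp C) (h1 : δ ≫ p = pullback.fst _ _)
    (h2 : δ ≫ q = pullback.snd _ _) : IsClosedImmersion δ := by
  have hi := h.isIso_u B C hB hC
  rw [← MorphismProperty.cancel_left_of_respectsIso (P := @IsClosedImmersion) (h.u B C hB hC)]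
  refine closed_of_join B C P _ p q ?_ ?_
  · rw [Category.assoc, h1]
    exact pullback.lift_fst _ _ _
  · rw [Category.assoc, h2]
    exact pullback.lift_snd _ _ _

end

end Pool.Agent.Run7.h431.SC
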